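import Pool.Agent.Helper32.EH.Final

/-!
# Orders of the graphs of the counterexample
-/

set_option autoImplicit false

namespace Pool.Agent.Helper8.EH

open Pool.Agent.Helper32.EH SimpleGraph

/-- the vertices of the box -/
def boxEquiv (m : ℕ) :
    {x : P // inBox m x} ≃ Σ l : Fin (m + 1), Fin (37 ^ (l : ℕ)) where
  toFun x := ⟨⟨x.1.1, Nat.lt_succ_of_le x.2.1⟩, ⟨x.1.2.toNat, by
    have h1 := x.2.2.1
    have h2 := x.2.2.2
    have h3 : ((x.1.2.toNat : ℕ) : ℤ) = x.1.2 := Int.toNat_of_nonneg h1
    have h4 : ((x.1.2.toNat : ℕ) : ℤ) < ((37 ^ x.1.1 : ℕ) : ℤ) := by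
      rw [h3]
      push_cast
      exact h2
    exact_mod_cast h4⟩⟩
  invFun y := ⟨((y.1 : ℕ), ((y.2 : ℕ) : ℤ)), Nat.le_of_lt_succ y.1.2, Int.natCast_nonneg _, by
    show ((y.2 : ℕ) : ℤ) < (37 : ℤ) ^ (y.1 : ℕ)
    exact_mod_cast y.2.2⟩
  left_inv := by
    rintro ⟨⟨a, i⟩, h⟩
    apply Subtype.ext
    apply Prod.ext
    · rfl
    · exact Int.toNat_of_nonneg h.2.1
  right_inv := by
    rintro ⟨l, i⟩
    rfl

theorem card_box (m n : ℕ) (h : 36 * n + 1 = 37 ^ (m + 1)) :
    Nat.card {x : P // inBox m x} = n := by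
  have hs : ∀ k : ℕ, 36 * (∑ l ∈ Finset.range k, 37 ^ l) + 1 = 37 ^ k := by
    intro k
    induction k with
    | zero => simp
    | succ k ih => rw [Finset.sum_range_succ, mul_add, pow_succ]; omega
  rw [Nat.card_congr (boxEquiv m), Nat.card_eq_fintype_card, Fintype.card_sigma]
  simp only [Fintype.card_fin]
  rw [Fin.sum_univ_eq_sum_range (fun l => 37 ^ l) (m + 1)]
  have := hs (m + 1)
  omega

/-- the darts of the doubled graph -/
def dmap {W : Type} (H : SimpleGraph W) : H.Dart ⊕ (H.Dart × Bool × Bool) → (dbl H).Dart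
  | Sum.inl d => ⟨(Sum.inl d.fst, Sum.inl d.snd), d.adj⟩
  | Sum.inr (e, b, true) => ⟨(Sum.inl (if b then e.fst else e.snd), Sum.inr e), by
      cases b
      · exact Or.inr rfl
      · exact Or.inl rfl⟩
  | Sum.inr (e, b, false) => ⟨(Sum.inr e, Sum.inl (if b then e.fst else e.snd)), by
      cases b
      · exact Or.inr rfl
      · exact Or.inl rfl⟩

theorem dmap_bij {W : Type} (H : SimpleGraph W) : Function.Bijective (dmap H) := by
  constructor
  · have hne : ∀ e : H.Dart, e.fst ≠ e.snd := fun e => e.adj.ne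
    have aux : ∀ (e : H.Dart) (b b' : Bool),
        (if b then e.fst else e.snd) = (if b' then e.fst else e.snd) → b = b' := by
      intro e b b' h
      cases b <;> cases b'
      · rfl
      · exact absurd h.symm (hne e)
      · exact absurd h (hne e)
      · rfl
    rintro (d | ⟨e, b, c⟩) (d' | ⟨e', b', c'⟩) h
    · have h1 := congrArg (fun x : (dbl H).Dart => x.toProd) h
      simp only [dmap, Prod.mk.injEq, Sum.inl.injEq] at h1
      congr 1
      exact SimpleGraph.Dart.ext _ _ (Prod.ext h1.1 h1.2)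
    · have h1 := congrArg (fun x : (dbl H).Dart => x.toProd) h
      cases c' <;> simp [dmap] at h1
    · have h1 := congrArg (fun x : (dbl H).Dart => x.toProd) h
      cases c <;> simp [dmap] at h1
    · have h1 := congrArg (fun x : (dbl H).Dart => x.toProd) h
      cases c <;> cases c'
      · simp only [dmap, Prod.mk.injEq, Sum.inl.injEq, Sum.inr.injEq] at h1
        obtain ⟨rfl, h2⟩ := h1
        rw [aux _ _ _ h2]
      · simp [dmap] at h1
      · simp [dmap] at h1
      · simp only [dmap, Prod.mk.injEq, Sum.inl.injEq, Sum.inr.injEq] at h1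
        obtain ⟨h2, rfl⟩ := h1
        rw [aux _ _ _ h2]
  · rintro ⟨⟨u | e, v | f⟩, h⟩
    · exact ⟨Sum.inl ⟨(u, v), h⟩, rfl⟩
    · rcases h with h | h
      · exact ⟨Sum.inr (f, true, true), by
          apply SimpleGraph.Dart.ext
          simp only [dmap, if_true, h]⟩
      · exact ⟨Sum.inr (f, false, true), by
          apply SimpleGraph.Dart.ext
          simp [dmap, h]⟩
    · rcases h with h | h
      · exact ⟨Sum.inr (e, true, false), by
          apply SimpleGraph.Dart.ext
          simp only [dmap, if_true, h]⟩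
      · exact ⟨Sum.inr (e, false, false), by
          apply SimpleGraph.Dart.ext
          simp [dmap, h]⟩
    · exact h.elim

theorem card_dart {W : Type} [Finite W] (H : SimpleGraph W) :
    Nat.card (dbl H).Dart = 5 * Nat.card H.Dart := by
  have := dart_finite H
  rw [← Nat.card_congr (Equiv.ofBijective _ (dmap_bij H)), Nat.card_sum, Nat.card_prod,
    Nat.card_prod]
  simp only [Nat.card_eq_fintype_card (α := Bool), Fintype.card_bool]
  ring

theorem card_vert {W : Type} [Finite W] (H : SimpleGraph W) :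
    Nat.card (W ⊕ H.Dart) = Nat.card W + Nat.card H.Dart := by
  have := dart_finite H
  rw [Nat.card_sum]

theorem card_H0 : Nat.card H0.Dart = 2 := by
  rw [show Nat.card H0.Dart = Nat.card (⊤ : SimpleGraph Bool).Dart from rfl,
    Nat.card_eq_fintype_card]
  decide

theorem card_H4 : Nat.card ((((Bool ⊕ H0.Dart) ⊕ (dbl H0).Dart) ⊕ (dbl (dbl H0)).Dart) ⊕
      (dbl (dbl (dbl H0))).Dart) = 314 := by
  have := dart_finite H0
  have := dart_finite (dbl H0)
  have := dart_finite (dbl (dbl H0))
  have := dart_finite (dbl (dbl (dbl H0)))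
  rw [card_vert, card_vert, card_vert, card_vert, card_dart, card_dart, card_dart, card_dart,
    card_dart, card_dart, card_H0, Nat.card_eq_fintype_card, Fintype.card_bool]

end Pool.Agent.Helper8.EH
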