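import Mathlib

/-!
# Complete minors and tree decompositions (Helly property of subtrees)
-/

set_option autoImplicit false

namespace Pool.Agent.Helper8.EH

open SimpleGraph

section Tree

variable {ι : Type} {T : SimpleGraph ι}

/-- In a tree, connected sets contain the paths between their points. -/
theorem convex (hT : T.IsTree) {S : Set ι} (hS : (T.induce S).Preconnected) {x y : ι} (hx : x ∈ S)
    (hy : y ∈ S) (p : T.Walk x y) (hp : p.IsPath) : ∀ z ∈ p.support, z ∈ S := by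
  classical
  obtain ⟨q⟩ := hS ⟨x, hx⟩ ⟨y, hy⟩
  have hsup : ∀ z ∈ (q.map (SimpleGraph.Embedding.induce S).toHom).support, z ∈ S := by
    intro z hz
    rw [Walk.support_map, List.mem_map] at hz
    obtain ⟨w, -, rfl⟩ := hz
    exact w.2
  have hb := (q.map (SimpleGraph.Embedding.induce S).toHom).bypass_isPath
  have hpq : p = (q.map (SimpleGraph.Embedding.induce S).toHom).bypass :=
    congrArg Subtype.val (hT.isAcyclic.path_unique ⟨p, hp⟩ ⟨_, hb⟩)
  intro z hz
  rw [hpq] at hz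
  exact hsup z ((q.map (SimpleGraph.Embedding.induce S).toHom).support_bypass_subset hz)

theorem dist_lt (hT : T.IsTree) {r x z : ι} (p : T.Walk r x) (hp : p.IsPath)
    (hz : z ∈ p.support) (hne : z ≠ x) : T.dist r z < T.dist r x := by
  classical
  have h1 : p.length = T.dist r x := by
    obtain ⟨q, hq⟩ := hT.connected.exists_walk_length_eq_dist r x
    have hqp := q.isPath_of_length_eq_dist hq
    have hpq : p = q := congrArg Subtype.val (hT.isAcyclic.path_unique ⟨p, hp⟩ ⟨q, hqp⟩)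
    rw [hpq, hq]
  have h3 : (p.takeUntil z hz).length < p.length := Walk.length_takeUntil_lt hz hne
  have h4 : T.dist r z ≤ (p.takeUntil z hz).length := dist_le _
  omega

/-- Every path from `r` to a connected set passes through the vertex of the set nearest to `r`. -/
theorem gate (hT : T.IsTree) {S : Set ι} (hS : (T.induce S).Preconnected) {r x y : ι} (hx : x ∈ S)
    (hy : y ∈ S) (hmin : ∀ z ∈ S, T.dist r x ≤ T.dist r z) (P : T.Walk r y) (hP : P.IsPath) :
    x ∈ P.support := by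
  classical
  obtain ⟨p, hp⟩ := (hT.connected r x).exists_isPath
  obtain ⟨q, hq⟩ := (hT.connected x y).exists_isPath
  have hpq : (p.append q).IsPath := by
    apply Walk.IsPath.mk'
    rw [Walk.support_append, List.nodup_append]
    refine ⟨hp.support_nodup, hq.support_nodup.tail, ?_⟩
    intro a ha b hb hab
    subst hab
    have haS : a ∈ S := convex hT hS hx hy q hq a (List.mem_of_mem_tail hb)
    by_cases hax : a = x
    · subst hax
      have := hq.support_nodup
      rw [← Walk.cons_tail_support, List.nodup_cons] at this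
      exact this.1 hb
    · exact absurd (dist_lt hT p hp ha hax) (not_lt.2 (hmin a haS))
  have hPe : P = p.append q := congrArg Subtype.val (hT.isAcyclic.path_unique ⟨P, hP⟩ ⟨_, hpq⟩)
  rw [hPe, Walk.mem_support_append_iff]
  exact Or.inl p.end_mem_support

/-- Helly property of subtrees. -/
theorem helly (hT : T.IsTree) {k : ℕ} (S : Fin (k + 1) → Set ι)
    (hS : ∀ i, (T.induce (S i)).Preconnected) (hpair : ∀ i j, (S i ∩ S j).Nonempty) :
    ∃ t, ∀ i, t ∈ S i := by
  classical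
  obtain ⟨r⟩ := hT.connected.nonempty
  have hex : ∀ i, ∃ x ∈ S i, ∀ z ∈ S i, T.dist r x ≤ T.dist r z := by
    intro i
    obtain ⟨y, hy, -⟩ := hpair i i
    obtain ⟨a, ha, hmin⟩ := (measure (T.dist r)).wf.has_min (S i) ⟨y, hy⟩
    exact ⟨a, ha, fun z hz => not_lt.1 (hmin z hz)⟩
  choose x hx hmin using hex
  obtain ⟨i0, hi0⟩ := Finite.exists_max (fun i => T.dist r (x i))
  refine ⟨x i0, fun j => ?_⟩
  obtain ⟨y, hy0, hyj⟩ := hpair i0 j
  obtain ⟨P, hP⟩ := (hT.connected r y).exists_isPath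
  have h1 : x i0 ∈ P.support := gate hT (hS i0) (hx i0) hy0 (hmin i0) P hP
  have h2 : x j ∈ P.support := gate hT (hS j) (hx j) hyj (hmin j) P hP
  by_cases h : x i0 ∈ (P.takeUntil (x j) h2).support
  · by_cases he : x i0 = x j
    · rw [he]
      exact hx j
    · have h3 := dist_lt hT (P.takeUntil (x j) h2) (hP.takeUntil h2) h he
      have h4 := hi0 j
      omega
  · have h5 : x i0 ∈ (P.dropUntil (x j) h2).support := by
      rw [← P.take_spec h2, Walk.mem_support_append_iff] at h1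
      exact h1.resolve_left h
    exact convex hT (hS j) (hx j) hyj _ (hP.dropUntil h2) _ h5

theorem union_pre {V : Type} {G : SimpleGraph V} (B : ι → Finset V)
    (he : ∀ u v, G.Adj u v → ∃ t, u ∈ B t ∧ v ∈ B t)
    (hc : ∀ v, (T.induce {t | v ∈ B t}).Preconnected) (X : Set V)
    (hX : (G.induce X).Preconnected) :
    (T.induce {t | ∃ v ∈ X, v ∈ B t}).Preconnected := by
  have base : ∀ v ∈ X, ∀ a b (ha : v ∈ B a) (hb : v ∈ B b)
      (ha' : a ∈ {t | ∃ v ∈ X, v ∈ B t}) (hb' : b ∈ {t | ∃ v ∈ X, v ∈ B t}),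
      (T.induce {t | ∃ v ∈ X, v ∈ B t}).Reachable ⟨a, ha'⟩ ⟨b, hb'⟩ := by
    intro v hv a b ha hb ha' hb'
    have hle : {t | v ∈ B t} ⊆ {t | ∃ v ∈ X, v ∈ B t} := fun t ht => ⟨v, hv, ht⟩
    have h := hc v ⟨a, ha⟩ ⟨b, hb⟩
    exact h.map (SimpleGraph.induceHomOfLE T hle).toHom
  have key : ∀ (v w : X) (_ : (G.induce X).Walk v w), ∀ a b (_ : v.1 ∈ B a) (_ : w.1 ∈ B b)
      (ha' : a ∈ {t | ∃ v ∈ X, v ∈ B t}) (hb' : b ∈ {t | ∃ v ∈ X, v ∈ B t}),
      (T.induce {t | ∃ v ∈ X, v ∈ B t}).Reachable ⟨a, ha'⟩ ⟨b, hb'⟩ := by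
    intro v w p
    induction p with
    | nil => intro a b ha hb ha' hb'; exact base _ (Subtype.property _) a b ha hb ha' hb'
    | @cons u u' w' hadj p ih =>
      intro a b ha hb ha' hb'
      obtain ⟨t, h1, h2⟩ := he u.1 u'.1 hadj
      exact (base u.1 u.2 a t ha h1 ha' ⟨u.1, u.2, h1⟩).trans
        (ih t b h2 hb ⟨u.1, u.2, h1⟩ hb')
  rintro ⟨a, ha⟩ ⟨b, hb⟩
  obtain ⟨v, hv, hva⟩ := ha
  obtain ⟨w, hw, hwb⟩ := hb
  obtain ⟨p⟩ := hX ⟨v, hv⟩ ⟨w, hw⟩
  exact key _ _ p a b hva hwb _ _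

/-- In a tree decomposition of a graph with a complete minor on `k + 1` vertices some bag has at
least `k + 1` vertices. -/
theorem exists_big_bag {V : Type} {G : SimpleGraph V} (hT : T.IsTree) (B : ι → Finset V)
    (hv : ∀ v, ∃ t, v ∈ B t) (he : ∀ u v, G.Adj u v → ∃ t, u ∈ B t ∧ v ∈ B t)
    (hc : ∀ v, (T.induce {t | v ∈ B t}).Preconnected) (k : ℕ) (X : Fin (k + 1) → Set V)
    (hX : ∀ i, (G.induce (X i)).Connected) (hd : ∀ i j, i ≠ j → Disjoint (X i) (X j))
    (ht : ∀ i j, i ≠ j → ∃ x ∈ X i, ∃ y ∈ X j, G.Adj x y) : ∃ t, k + 1 ≤ (B t).card := by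
  classical
  obtain ⟨t, h⟩ := helly hT (fun i => {t | ∃ v ∈ X i, v ∈ B t})
    (fun i => union_pre B he hc (X i) (hX i).preconnected) (by
      intro i j
      by_cases hij : i = j
      · subst hij
        obtain ⟨v⟩ := (hX i).nonempty
        obtain ⟨t, ht'⟩ := hv v.1
        exact ⟨t, ⟨v.1, v.2, ht'⟩, ⟨v.1, v.2, ht'⟩⟩
      · obtain ⟨x, hx, y, hy, hxy⟩ := ht i j hij
        obtain ⟨t, h1, h2⟩ := he x y hxy
        exact ⟨t, ⟨x, hx, h1⟩, ⟨y, hy, h2⟩⟩)
  have h' : ∀ i, ∃ v ∈ X i, v ∈ B t := h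
  choose v hvX hvB using h'
  refine ⟨t, ?_⟩
  have hinj : Function.Injective v := by
    intro i j hij
    by_contra hne
    exact Set.disjoint_left.1 (hd i j hne) (hvX i) (hij ▸ hvX j)
  have hcard := Finset.card_le_card_of_injOn (s := Finset.univ) (t := B t) v
    (fun i _ => hvB i) hinj.injOn
  simpa using hcard

end Tree

end Pool.Agent.Helper8.EH
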